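import Pool.Agent.H19.Cov

set_option autoImplicit false

namespace Pool.Agent.Results.MP_acc8c3_co.Lower

open Pool.Agent.H19.Cov

theorem result (k : ℕ) (hk : 1 ≤ k) :
    ∃ (A B : Type) (_ : Finite A) (_ : Finite B) (_ : Nonempty A) (_ : Nonempty B)
      (col : A → B → Fin k), Spanning col ∧
      ∀ S : Finset (Σ i : Fin k, (colourGraph col i).ConnectedComponent),
        Covers col S → 2 * k ≤ S.card + 4 := by
  by_cases h : 3 ≤ k
  · obtain ⟨r, rfl⟩ := Nat.exists_eq_add_of_le' h
    refine ⟨AA r, BB r, inferInstance, inferInstance, inferInstance, inferInstance, col r,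
      spanning r, fun S hS => ?_⟩
    have := main r S hS
    omega
  · refine ⟨Unit, Unit, inferInstance, inferInstance, inferInstance, inferInstance,
      fun _ _ => ⟨0, hk⟩, ?_, fun S _ => by omega⟩
    rintro i ⟨a, b, h⟩
    exact ⟨fun _ => ⟨b, h⟩, fun _ => ⟨a, h⟩⟩

end Pool.Agent.Results.MP_acc8c3_co.Lower
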